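import Pool.Agent.N696.SA.Half

set_option autoImplicit false

/-!
# Strength two: for almost all `n` the divisibility condition decides `S(n,q,2)` for all `q`
-/

open Finset

namespace Pool.Agent.Results.MP_409a13_co.AlmostAllPairs

/-- A Steiner system `S(n,q,2)` exists: there is a family `B` of `q`-element subsets of an
`n`-element set such that each `2`-element subset lies in exactly one member of `B`. -/
def Steiner2 (n q : ℕ) : Prop :=
  ∃ B : Finset (Finset (Fin n)), (∀ b ∈ B, b.card = q) ∧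
    ∀ T : Finset (Fin n), T.card = 2 → ∃! b, b ∈ B ∧ T ⊆ b

/-- The divisibility condition (D) for `(n,q,2)`. -/
def Div2 (n q : ℕ) : Prop := ∀ i < 2, (q - i).choose (2 - i) ∣ (n - i).choose (2 - i)

open Classical in
/-- the `n ≤ X` for which (D) does not decide the existence of `S(n,q,2)` for some `q`,
`2 ≤ q ≤ n` -/
noncomputable def undecided (X : ℕ) : Finset ℕ :=
  {n ∈ Icc 1 X | ∃ q, 2 ≤ q ∧ q ≤ n ∧ ¬ (Steiner2 n q ↔ Div2 n q)}

open Classical in
/-- the pairs `(n,q)`, `2 ≤ q ≤ n ≤ X`, with (D) but without an `S(n,q,2)` -/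
noncomputable def exceptions (X : ℕ) : Finset (ℕ × ℕ) :=
  {p ∈ Icc 1 X ×ˢ Icc 2 X | p.2 ≤ p.1 ∧ Div2 p.1 p.2 ∧ ¬ Steiner2 p.1 p.2}

open Classical in
/-- the pairs `(n,q)`, `3 ≤ q < n ≤ X`, for which an `S(n,q,2)` exists -/
noncomputable def pairs (X : ℕ) : Finset (ℕ × ℕ) :=
  {p ∈ Icc 1 X ×ˢ Icc 3 X | p.2 < p.1 ∧ Steiner2 p.1 p.2}

open Classical in
/-- the `n ≤ X` for which an `S(n,q,2)` with some `q`, `3 ≤ q < n`, exists -/
noncomputable def orders (X : ℕ) : Finset ℕ :=
  {n ∈ Icc 1 X | ∃ q, 3 ≤ q ∧ q < n ∧ Steiner2 n q}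

/-- the number of ordered pairs `(a,b)` of coprime positive integers with `a b = q`
(that is `2` to the number of the primes which divide `q`) -/
def splits (q : ℕ) : ℕ := #{p ∈ q.divisorsAntidiagonal | p.1.Coprime p.2}

/-- the density of the `n` with (D) for `(n,q,2)`, for `q ≥ 3` -/
noncomputable def c (q : ℕ) : ℝ := if 3 ≤ q then (splits q : ℝ) / ((q : ℝ) * ((q : ℝ) - 1)) else 0

/-- `E X = X (log log X)² / log X` -/
noncomputable def E (X : ℕ) : ℝ := X * Real.log (Real.log X) ^ 2 / Real.log X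

theorem result :
    Summable c ∧ ∃ δ : ℝ, 1 / 2 ≤ δ ∧ δ ≤ 1 ∧ ∀ X : ℕ, 16 ≤ X →
      ((undecided X).card : ℝ) ≤ 10 ^ 9 * E X ∧
      ((exceptions X).card : ℝ) ≤ 10 ^ 9 * E X ∧
      |((pairs X).card : ℝ) - (∑' q, c q) * X| ≤ 2 * 10 ^ 9 * E X ∧
      |((orders X).card : ℝ) - δ * X| ≤ 2 * 10 ^ 9 * E X := by
  refine ⟨N696.SA.term_summable, N696.SA.dens, N696.SA.half_le_dens, N696.SA.dens_le_one, ?_⟩
  intro X hX
  obtain ⟨b1, b2, b3, b4, b5⟩ := N696.SA.Er_basic hX
  have h := N696.SA.UN_card hX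
  have hE : E X = N696.SA.Er X := rfl
  have hU : exceptions X = N696.SA.UN X := rfl
  have h1 : ((exceptions X).card : ℝ) ≤ 10 ^ 9 * E X := by
    rw [hE, hU]
    linarith
  refine ⟨?_, h1, N696.SA.EX_card hX, N696.SA.EN_card hX⟩
  refine le_trans ?_ h1
  have h2 : (undecided X).card ≤ (exceptions X).card := by
    classical
    calc (undecided X).card ≤ ((exceptions X).image Prod.fst).card := by
          apply card_le_card
          intro n hn
          unfold undecided at hn
          rw [mem_filter, mem_Icc] at hn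
          obtain ⟨⟨g1, g2⟩, q, g3, g4, g5⟩ := hn
          have g6 : Steiner2 n q → Div2 n q := fun hS => N696.SA.S2_D g1 hS
          rw [mem_image]
          refine ⟨(n, q), ?_, rfl⟩
          unfold exceptions
          rw [mem_filter, mem_product, mem_Icc, mem_Icc]
          have g7 : Div2 n q ∧ ¬ Steiner2 n q := by
            constructor
            · by_contra hD
              exact g5 ⟨g6, fun h => absurd h hD⟩
            · intro hS
              exact g5 ⟨g6, fun _ => hS⟩
          exact ⟨⟨⟨g1, g2⟩, g3, g4.trans g2⟩, g4, g7.1, g7.2⟩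
      _ ≤ (exceptions X).card := card_image_le
  exact_mod_cast h2

end Pool.Agent.Results.MP_409a13_co.AlmostAllPairs
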