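import Pool.Agent.N409.Eight736
import Pool.Agent.N409.Eight1576
import Pool.Agent.N409.Nine2025
import Pool.Agent.N409.EightDM
import Pool.Agent.N409.Rot1593

/-!
The Steiner systems `S(736,8,2)`, `S(1576,8,2)`, `S(2241,8,2)`, `S(2913,8,2)`, `S(3473,8,2)`,
`S(2025,9,2)` and `S(14113,9,2)`.
-/

namespace Pool.Agent.Results.MP_409a13_co.BlocksEightNineMore

/-- For each pair `(n, q)` in the list there is a Steiner system `S(n,q,2)`: a family of
`q`-subsets of a set with `n` elements such that every `2`-subset lies in exactly one member. -/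
theorem result : ∀ p ∈ ([(736, 8), (1576, 8), (2241, 8), (2913, 8), (3473, 8), (2025, 9),
      (14113, 9)] : List (ℕ × ℕ)),
    ∃ B : Finset (Finset (Fin p.1)), (∀ b ∈ B, b.card = p.2) ∧
      ∀ T : Finset (Fin p.1), T.card = 2 → ∃! b, b ∈ B ∧ T ⊆ b := by
  intro p hp
  simp only [List.mem_cons, List.not_mem_nil, or_false] at hp
  rcases hp with rfl | rfl | rfl | rfl | rfl | rfl | rfl
  · exact Pool.Agent.Y345.steiner_of_sd (by norm_num) Pool.Agent.N409.s736
  · exact Pool.Agent.N409.toSystem Pool.Agent.N409.s1576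
  · exact Pool.Agent.N409.sys rfl rfl Pool.Agent.N409.ok7_320
  · exact Pool.Agent.N409.sys rfl rfl Pool.Agent.N409.ok7_416
  · exact Pool.Agent.N409.sys rfl rfl Pool.Agent.N409.ok7_496
  · exact Pool.Agent.N409.toSystem Pool.Agent.N409.s2025
  · exact Pool.Agent.N409.sys rfl rfl Pool.Agent.N409.ok8_1764

end Pool.Agent.Results.MP_409a13_co.BlocksEightNineMore
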