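import Pool.Agent.N606.ST.Persp
import Pool.Agent.N606.ST.Sharpness2

/-!
# Products of perspectivities in a projective plane

A projective plane of order `n` is a Steiner system `S(n ^ 2 + n + 1, n + 1, 2)`. Desargues'
theorem says that the product of a perspectivity `l₁ → l₂` and a perspectivity `l₂ → l₃` between
three lines through a point is a perspectivity `l₁ → l₃`. In a plane whose order is not a prime
power this fails for at least a ninth of the products, whichever the three lines are. In every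
plane of order `n ≥ 9` it fails either never or for a proportion of at least `c / √n` of the
products, and this is the right order of magnitude.
-/

set_option autoImplicit false

namespace Pool.Agent.Results.MP_409a13_co.PerspectivityGap

open Pool.Agent.N606.ST

theorem result :
    -- (1) the order is not a prime power
    (∀ (V : Type) [Fintype V] (n : ℕ) (B : Finset (Finset V)) (Z : V) (l₁ l₂ l₃ : Finset V),
      Plane n B → Three B Z l₁ l₂ l₃ → ¬ IsPrimePow n →
        (n * (n - 1)) ^ 2 ≤ 9 * (nonPersp B Z l₁ l₂ l₃).ncard) ∧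
    -- (2) the general dichotomy
    (∀ (V : Type) [Fintype V] (n : ℕ) (B : Finset (Finset V)) (Z : V) (l₁ l₂ l₃ : Finset V),
      Plane n B → Three B Z l₁ l₂ l₃ → 9 ≤ n →
        nonPersp B Z l₁ l₂ l₃ = ∅ ∨
          ((n : ℝ) * (n - 1) / 2) * (n * (Real.sqrt n - 1)) ≤ (nonPersp B Z l₁ l₂ l₃).ncard) ∧
    -- (3) the bound in (2) has the right order of magnitude
    (∀ q : ℕ, IsPrimePow q → 4 ≤ q →
      ∃ (V : Type) (_ : Fintype V) (B : Finset (Finset V)) (Z : V) (l₁ l₂ l₃ : Finset V),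
        Plane (q ^ 2) B ∧ Three B Z l₁ l₂ l₃ ∧ (nonPersp B Z l₁ l₂ l₃).Nonempty ∧
        (nonPersp B Z l₁ l₂ l₃).ncard ≤ 3 * ((q + 1) * q ^ 2) * (q ^ 2 * (q ^ 2 - 1))) := by
  refine ⟨?_, ?_, ?_⟩
  · intro V _ n B Z l₁ l₂ l₃ hB ⟨h1, h2, h3, h12, h23, h13, hZ1, hZ2, hZ3⟩ hnp
    classical
    by_cases hn : 2 ≤ n
    · exact ninth hB hn hnp h1 h2 h3 h12 h23 h13 hZ1 hZ2 hZ3
    · interval_cases n <;> simp
  · intro V _ n B Z l₁ l₂ l₃ hB ⟨h1, h2, h3, h12, h23, h13, hZ1, hZ2, hZ3⟩ hn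
    classical
    rcases (nonPersp B Z l₁ l₂ l₃).eq_empty_or_nonempty with he | hne
    · exact Or.inl he
    · exact Or.inr (gap hB hn h1 h2 h3 h12 h23 h13 hZ1 hZ2 hZ3 hne)
  · intro q hq h4
    obtain ⟨V, hV, B, Z, l₁, l₂, l₃, hB, h1, h2, h3, h12, h23, h13, hZ1, hZ2, hZ3, h5, h6⟩ :=
      exists_few hq h4
    exact ⟨V, hV, B, Z, l₁, l₂, l₃, hB, ⟨h1, h2, h3, h12, h23, h13, hZ1, hZ2, hZ3⟩, h5, h6⟩

end Pool.Agent.Results.MP_409a13_co.PerspectivityGap
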