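import Pool.Agent.N86.S7.Main

/-!
# Steiner systems on the projective line which are invariant under `PSL(2, q)`

Let `K` be a field with `q = p ^ e` elements and let `𝓑` be the set of blocks of a Steiner system
`S(t, k, q + 1)`, `4 ≤ t < k < q + 1`, on the projective line `K ∪ {∞}` which is invariant under
`PSL(2, q)`.  No transitivity is assumed.  Put `d = gcd (2, q - 1)`, or `d = 1` if `𝓑` is invariant
under `PGL(2, q)`.

A subgroup `H` of order `r` of a nonsplit torus (`r ∣ (q + 1) / d`), of the group of translations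
(`r ∣ q`), or of a split torus (`r ∣ (q - 1) / d`) has `f = 0`, `1`, `2` fixed points and is
semiregular on the other points.  The theorem says what the blocks through unions of orbits of `H`
give, for every strength `t`; the main point is that `t ≠ 2 r + f` if `f ≠ 1`.
In particular `t ≠ 4` (`r = 1`, `f = 2`); if `t` is even and `q` is odd, then `k` is even (`r = 2`);
for every even `t` and every odd `q` which is `- 1` modulo `t` or `1` modulo `t - 2` there is no such
Steiner system; for `t = 5` and `q = 2 ^ e` we get `k = 2 ^ m + 1` with `m - 1 ∣ e - 1`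
(`r = 2`, `f = 1`).  For `t = 5` and `t = 6` we prove more: if `t = 6`, then `q = 3 ^ e` or
`q = 7 ^ e`, with `e` odd, and `𝓑` is not invariant under `PGL(2, q)`.

The main point.  Let `t = 2 r + f`.  Two regular orbits of `H`, together with the fixed points, lie
in a unique block, which is `H`-invariant, and it is also invariant under the involutions which
exchange the two orbits.  So the regular orbits of `H` are the points of a Steiner system
`S(2, κ, n)` invariant under many reflections `z ↦ x y / z` (or `z ↦ x + y - z`).  Two reflections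
make a rotation, and one finds that the blocks of this `S(2, κ, n)` are cosets of subgroups or
unions of two such cosets; if `f ≠ 1` the group of the rotations is cyclic, has only one subgroup
of each order, and so all the blocks through a point coincide, which is absurd.  (If `q` is
`1` modulo `4` and `d = 2` only half of the reflections are there; this needs extra arguments for
`κ ≤ 4`.)
-/

set_option autoImplicit false

namespace Pool.Agent.Results.MP_409a13_co.ProjectiveLineSteiner

open Matrix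

/-- `𝓑` is the set of blocks of a Steiner system on the point set `X` with block size `k` and
strength `t` (that is, of an `S(t, k, |X|)`): all blocks have `k` elements and every `t`-element
set of points lies in exactly one block. -/
def IsSteiner {X : Type*} (t k : ℕ) (𝓑 : Set (Finset X)) : Prop :=
  (∀ B ∈ 𝓑, B.card = k) ∧ ∀ T : Finset X, T.card = t → ∃! B : Finset X, B ∈ 𝓑 ∧ T ⊆ B

/-- The permutation `x ↦ (a x + b) / (c x + d)` of the projective line `K ∪ {∞}` given by a matrix
`(a, b; c, d)` of determinant one.  These permutations form the group `PSL(2, K)`. -/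
def mobius {K : Type*} [Field K] [DecidableEq K] (A : SpecialLinearGroup (Fin 2) K) :
    Equiv.Perm (OnePoint K) :=
  MulAction.toPerm (SpecialLinearGroup.toGL A)

/-- The group `G` contains the permutations `x ↦ (a x + b) / (c x + d)` of the projective line
`K ∪ {∞}` given by all invertible matrices `(a, b; c, d)`, that is, it contains `PGL(2, K)`. -/
def ContainsPGL {K : Type*} [Field K] [DecidableEq K]
    (G : Subgroup (Equiv.Perm (OnePoint K))) : Prop :=
  ∀ A : GL (Fin 2) K, MulAction.toPerm A ∈ G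

/-- `g` is a semilinear fractional transformation `x ↦ (a σ(x) + b) / (c σ(x) + d)` of the
projective line `K ∪ {∞}`, where `σ` is an automorphism of the field `K` and `a d - b c ≠ 0`.
These permutations form the group `PΓL(2, K)`. -/
def IsSemilinear {K : Type*} [Field K] [DecidableEq K] (g : Equiv.Perm (OnePoint K)) : Prop :=
  ∃ (A : GL (Fin 2) K) (σ : K ≃+* K), ∀ x : OnePoint K, g x = A • x.map σ

/-- The set of the orbits of the group `G` of permutations of `X` on the set `𝓑` of finite subsets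
of `X`. -/
def blockOrbits {X : Type*} (G : Subgroup (Equiv.Perm X)) (𝓑 : Set (Finset X)) :
    Set (Set (Finset X)) :=
  {O | ∃ B ∈ 𝓑, O = {B' | ∃ g ∈ G, B' = B.map g.toEmbedding}}

/-- `f` is `0` and `r` divides `(q + 1) / d`, or `f` is `1` and `r` divides `q`, or `f` is `2` and
`r` divides `(q - 1) / d`. -/
def IsOrder (q d f r : ℕ) : Prop :=
  (f = 0 ∧ r ∣ (q + 1) / d) ∨ (f = 1 ∧ r ∣ q) ∨ (f = 2 ∧ r ∣ (q - 1) / d)

/-- **Steiner systems on the projective line which are invariant under `PSL(2, q)`.** -/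
theorem result {K : Type*} [Field K] [Fintype K] [DecidableEq K] (p e t k : ℕ) (hp : p.Prime)
    (hq : Fintype.card K = p ^ e) (ht : 4 ≤ t) (hk : t < k) (hkq : k < Fintype.card K + 1)
    (𝓑 : Set (Finset (OnePoint K))) (h𝓑 : IsSteiner t k 𝓑)
    (G : Subgroup (Equiv.Perm (OnePoint K)))
    (hPSL : ∀ A : SpecialLinearGroup (Fin 2) K, mobius A ∈ G)
    (hPΓL : ∀ g ∈ G, IsSemilinear g)
    (hG : ∀ g ∈ G, ∀ B ∈ 𝓑, B.map g.toEmbedding ∈ 𝓑) :
    (∀ d f r : ℕ, (d = Nat.gcd 2 (Fintype.card K - 1) ∨ (d = 1 ∧ ContainsPGL G)) →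
      IsOrder (Fintype.card K) d f r →
        (r ∣ t - f → r ∣ k - f) ∧
        (t = r + f → k - f ∣ Fintype.card K + 1 - f) ∧
        (t = 2 * r + f → f = 1 ∧ k - 1 - r ∣ Fintype.card K - r ∧
          ((Fintype.card K % 4 = 3 → d = 1) → k - 1 ∣ Fintype.card K)) ∧
        (t = 2 * r + 1 → f = 2 →
          k = t + 1 ∨ (r ∣ k - 1 ∧ k - 1 - r ∣ Fintype.card K - 1 - r)) ∧
        (t = 2 * r → f = 2 → k = t + 2) ∧
        (t = 2 * r → f = 1 → k % r ≤ 1 ∧ k - k % r - r ∣ Fintype.card K - r)) ∧
    5 ≤ t ∧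
    (t = 5 → Odd (Fintype.card K) → (Fintype.card K % 4 = 1 ∨ ContainsPGL G) →
      Odd k ∧ (k - 3) * (k - 4) ∣ Fintype.card K - 3 ∧
        (Fintype.card K % 4 = 1 → k % 4 = 1 ∧ 17 ≤ k)) ∧
    (t = 6 → Odd e ∧ ((p = 3 ∧ 16 ≤ k) ∨ (p = 7 ∧ k = 8)) ∧ ¬ ContainsPGL G ∧
      2 ≤ (blockOrbits G 𝓑).ncard ∧
      Real.sqrt (Fintype.card K) - 15 / 2 ≤ 2 * e * (blockOrbits G 𝓑).ncard) := by
  classical
  -- the design as a finset of blocks
  let 𝓒 : Finset (Finset (OnePoint K)) := Finset.univ.filter (fun B => B ∈ 𝓑)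
  have hmem : ∀ B, B ∈ 𝓒 ↔ B ∈ 𝓑 := fun B => by simp [𝓒]
  have hD : N86.S6.IsDesign t k 1 𝓒 := by
    refine ⟨fun B hB => h𝓑.1 B ((hmem B).1 hB), fun S hS => ?_⟩
    obtain ⟨B, hB, hu⟩ := h𝓑.2 S hS
    rw [Finset.card_eq_one]
    refine ⟨B, ?_⟩
    rw [Finset.eq_singleton_iff_unique_mem]
    constructor
    · rw [Finset.mem_filter]
      exact ⟨(hmem B).2 hB.1, hB.2⟩
    · intro B' hB'
      rw [Finset.mem_filter] at hB'
      exact hu B' ⟨(hmem B').1 hB'.1, hB'.2⟩
  have hinv : ∀ g ∈ G, ∀ B ∈ 𝓒, B.image g ∈ 𝓒 := by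
    intro g hg B hB
    rw [hmem] at hB ⊢
    have h1 := hG g hg B hB
    rwa [Finset.map_eq_image] at h1
  have hSL : ∀ A : SpecialLinearGroup (Fin 2) K, N86.S6.slPerm A ∈ G := hPSL
  have hsemi : ∀ g ∈ G, N86.S6.IsSemilinear g := hPΓL
  have hSL' : ∀ A : SpecialLinearGroup (Fin 2) K, ∀ B ∈ 𝓒, B.image (N86.S6.slPerm A) ∈ 𝓒 :=
    fun A B hB => hinv _ (hSL A) B hB
  have hq1 : 1 < Fintype.card K := Fintype.one_lt_card
  have hgen := fun d r f hd hf =>
    N86.S7.general_all hp hq hD G hinv hSL ht hk hkq d r f hd hf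
  have h5 : 5 ≤ t := by
    by_contra hcon
    have h4 : t = 4 := by omega
    subst h4
    exact N86.S4.no_four hD hSL' hk hkq
  refine ⟨fun d f r hd hf => ?_, h5, fun h => ?_, fun h => ?_⟩
  · obtain ⟨h1, h2, h3, h4, h6, h7⟩ := hgen d r f hd hf
    refine ⟨h1, h2, h3, h4, fun h8 h9 => ?_, h7⟩
    rcases h6 h8 h9 with h10 | h10
    · omega
    · exact h10
  · intro hodd hcase
    subst h
    exact N86.S7.five_all hp hq hD G hinv hSL hk hkq (Nat.odd_iff.1 hodd) hcase
  subst h
  -- representatives of the orbits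
  have hfin : (blockOrbits G 𝓑).Finite := Set.toFinite _
  have hch : ∀ O : Set (Finset (OnePoint K)), ∃ B : Finset (OnePoint K), O ∈ blockOrbits G 𝓑 →
      O = {B' | ∃ g ∈ G, B' = B.map g.toEmbedding} := by
    intro O
    by_cases hO : O ∈ blockOrbits G 𝓑
    · obtain ⟨B, -, h⟩ := hO
      exact ⟨B, fun _ => h⟩
    · exact ⟨∅, fun h => absurd h hO⟩
  choose f hf using hch
  let R : Finset (Finset (OnePoint K)) := hfin.toFinset.image f
  have hRc : R.card ≤ (blockOrbits G 𝓑).ncard := by
    rw [Set.ncard_eq_toFinset_card _ hfin]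
    exact Finset.card_image_le
  have hR : ∀ B ∈ 𝓒, ∃ A ∈ R, ∃ g ∈ G, B = A.image g := by
    intro B hB
    rw [hmem] at hB
    have hO : {B' | ∃ g ∈ G, B' = B.map g.toEmbedding} ∈ blockOrbits G 𝓑 := ⟨B, hB, rfl⟩
    refine ⟨f _, Finset.mem_image_of_mem f ((hfin.mem_toFinset).2 hO), ?_⟩
    have h1 := hf _ hO
    have h2 : B ∈ {B' | ∃ g ∈ G, B' = B.map g.toEmbedding} := by
      refine ⟨1, G.one_mem, ?_⟩
      rw [Finset.map_eq_image]
      symm
      exact Finset.image_id
    rw [h1] at h2
    obtain ⟨g, hg, h3⟩ := h2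
    refine ⟨g, hg, ?_⟩
    rwa [Finset.map_eq_image] at h3
  have hmain := N86.S6.orbits_bound hD G hSL hsemi hinv hR hk (by omega) hp hq
  have hsix := N86.S46.six_main hD hSL' hk hkq hp hq
  have hodd : Odd e := by
    rcases hsix with h | h
    · exact h.2.1
    · exact h.2.1
  refine ⟨hodd, ?_, ?_, hmain.1.trans hRc, hmain.2.trans ?_⟩
  · rcases hsix with h | h
    · exact Or.inl ⟨h.1, h.2.2⟩
    · exact Or.inr ⟨h.1, h.2.2⟩
  · intro hPGL
    have hqodd : Fintype.card K % 2 = 1 := by
      rw [hq]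
      rcases hsix with h | h
      · rw [h.1]; exact Nat.odd_iff.1 (Odd.pow (by decide))
      · rw [h.1]; exact Nat.odd_iff.1 (Odd.pow (by decide))
    have h1 := (hgen 1 2 2 (Or.inr ⟨rfl, hPGL⟩) (Or.inr (Or.inr ⟨rfl, by
      rw [Nat.div_one]; omega⟩))).2.2.1 rfl
    omega
  have h1 : (R.card : ℝ) ≤ (blockOrbits G 𝓑).ncard := by exact_mod_cast hRc
  have h2 : (0 : ℝ) ≤ 2 * e := by positivity
  exact mul_le_mul_of_nonneg_left h1 h2

end Pool.Agent.Results.MP_409a13_co.ProjectiveLineSteiner
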